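import Mathlib

namespace Pool.Agent.Results.MP_d352c9_an.Phase

open Set Filter Topology MeasureTheory ArithmeticFunction MvPolynomial
open scoped ArithmeticFunction.Omega

/-- `T` has exactly one invariant Borel probability measure -/
def UniqErg {X : Type} [MeasurableSpace X] (T : X → X) : Prop :=
  ∃! μ : Measure X, IsProbabilityMeasure μ ∧ μ.map T = μ

/-- `P(m,n)` is positive for all positive integers `m, n` -/
def Pos (P : MvPolynomial (Fin 2) ℤ) : Prop :=
  ∀ m n : ℕ, 0 < m → 0 < n → 0 < eval ![(m : ℤ), (n : ℤ)] P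

/-- the averages `A_N(x)` -/
noncomputable def A {X : Type} (T : X → X) (P : MvPolynomial (Fin 2) ℤ) (F : X → ℂ) (x : X)
    (N : ℕ) : ℂ :=
  (∑ m ∈ Finset.Icc 1 N, ∑ n ∈ Finset.Icc 1 N,
    F (T^[Ω (eval ![(m : ℤ), (n : ℤ)] P).toNat] x)) / (N : ℂ) ^ 2

/-- some uniquely ergodic system, continuous `F` and point `x` have divergent averages along `P` -/
def Bad (P : MvPolynomial (Fin 2) ℤ) : Prop :=
  ∃ (X : Type) (_ : MetricSpace X) (_ : CompactSpace X) (_ : MeasurableSpace X) (_ : BorelSpace X)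
    (T : X → X), Continuous T ∧ UniqErg T ∧ ∃ (F : C(X, ℂ)) (x : X),
      ¬ ∃ L, Tendsto (A T P F x) atTop (𝓝 L)

lemma lemA (ε : ℝ) (hε : 0 < ε) (B : ℕ) :
    ∃ M : ℕ, M ≠ 0 ∧ (∀ p, p.Prime → p ∣ M → B < p) ∧ (M.totient : ℝ) ≤ ε * M := by
  obtain ⟨n, hn⟩ := (((not_summable_iff_tendsto_nat_atTop_of_nonneg
    (indicator_nonneg fun _ _ => by positivity)).1 not_summable_one_div_on_primes).eventually
    (eventually_ge_atTop (B + 1 - Real.log ε))).exists
  let S := (Finset.range n).filter fun p => p.Prime ∧ B < p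
  have hS : ∀ p ∈ S, p.Prime := fun p h => (Finset.mem_filter.1 h).2.1
  have h0 : ∏ p ∈ S, p ≠ 0 := Finset.prod_ne_zero_iff.2 fun p h => (hS p h).ne_zero
  have e := Nat.primeFactors_prod hS
  refine ⟨_, h0, fun p h1 h2 => ?_, ?_⟩
  · exact (Finset.mem_filter.1 (e ▸ Nat.mem_primeFactors.2 ⟨h1, h2, h0⟩ : p ∈ S)).2.2
  have t := congrArg (Rat.cast : ℚ → ℝ) (Nat.totient_eq_mul_prod_factors (∏ p ∈ S, p))
  rw [e, Rat.cast_natCast, Rat.cast_mul, Rat.cast_natCast, mul_comm] at t
  rw [t]
  refine mul_le_mul_of_nonneg_right ?_ (Nat.cast_nonneg _)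
  have s1 : ∑ i ∈ Finset.range n, indicator {p | p.Prime} (fun n : ℕ => (1 : ℝ) / n) i ≤
      ∑ p ∈ S, (p : ℝ)⁻¹ + ∑ _i ∈ Finset.range (B + 1), (1 : ℝ) := by
    rw [← Finset.sum_filter_add_sum_filter_not _ fun p => p.Prime ∧ B < p]
    refine add_le_add (Finset.sum_le_sum fun p h => by simp [hS p h]) ?_
    rw [← Finset.sum_filter_ne_zero]
    refine (Finset.sum_le_sum fun p _ => ?_).trans (Finset.sum_le_sum_of_subset_of_nonneg
      (fun p h => ?_) fun _ _ _ => zero_le_one)
    · exact indicator_apply_le' (fun _ => by simpa using Nat.cast_inv_le_one p) fun _ => zero_le_one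
    · simp only [Finset.mem_filter, Finset.mem_range] at h ⊢
      by_contra k
      exact h.2 (indicator_of_notMem (fun q => h.1.2 ⟨q, by omega⟩) _)
  push_cast
  calc ∏ p ∈ S, (1 - (p : ℝ)⁻¹) ≤ ∏ p ∈ S, Real.exp (-(p : ℝ)⁻¹) :=
        Finset.prod_le_prod (fun p _ => sub_nonneg.2 (Nat.cast_inv_le_one p))
          fun p _ => Real.one_sub_le_exp_neg _
    _ ≤ ε := by
        rw [← Real.exp_sum, ← Real.le_log_iff_exp_le hε, Finset.sum_neg_distrib]
        simp only [Finset.sum_const, Finset.card_range, nsmul_eq_mul] at s1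
        push_cast at s1
        linarith

lemma lemB (k : ℕ) : ∀ ε : ℝ, 0 < ε → ∃ B : ℕ, ∀ᶠ N : ℕ in atTop,
    (((Finset.Icc 1 N).filter fun m => (m.primeFactors.filter (· ≤ B)).card < k).card : ℝ) ≤ ε * N := by
  induction k with
  | zero => exact fun ε h => ⟨0, Eventually.of_forall fun N => by simp; positivity⟩
  | succ k ih =>
    intro ε h
    obtain ⟨B, hB⟩ := ih (ε / 2) (by positivity)
    obtain ⟨M, m0, m1, m2⟩ := lemA (ε / 4) (by positivity) B
    refine ⟨max B M, (hB.and (eventually_ge_atTop M)).mono fun N ⟨h1, h2⟩ => ?_⟩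
    have c := Nat.Ico_filter_coprime_le 1 N m0
    have c1 : ((N / M + 1 : ℕ) : ℝ) * M ≤ 2 * N := by
      have := Nat.div_mul_le_self N M
      exact_mod_cast (by nlinarith : (N / M + 1) * M ≤ 2 * N)
    have c2 : (((Finset.Ico 1 (1 + N)).filter M.Coprime).card : ℝ) ≤ ε / 2 * N := by
      refine (Nat.cast_le.2 c).trans ?_
      rw [Nat.cast_mul]
      nlinarith [mul_le_mul_of_nonneg_right m2 (Nat.cast_nonneg (α := ℝ) (N / M + 1))]
    refine (Nat.cast_le.2 ((Finset.card_le_card fun m hm => ?_).trans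
      (Finset.card_union_le _ _))).trans ((Nat.cast_add _ _).trans_le
        ((add_le_add h1 c2).trans_eq (by ring)))
    simp only [Finset.mem_union, Finset.mem_filter, Finset.mem_Icc, Finset.mem_Ico] at hm ⊢
    by_contra q
    obtain ⟨p, p1, p2, p3⟩ := Nat.Prime.not_coprime_iff_dvd.1 fun r => q (Or.inr ⟨by omega, r⟩)
    have := Finset.card_lt_card (s := m.primeFactors.filter (· ≤ B))
      (t := m.primeFactors.filter (· ≤ max B M)) ⟨fun x hx => by grind, fun r => by
        have := r (Finset.mem_filter.2 ⟨Nat.mem_primeFactors.2 ⟨p1, p3, by omega⟩,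
          (Nat.le_of_dvd (Nat.pos_of_ne_zero m0) p2).trans (le_max_right _ _)⟩)
        have := m1 p p1 p2
        grind⟩
    exact q (Or.inl ⟨hm.1, by omega⟩)

lemma lemC (k : ℕ) : ∃ N : ℕ, k < N ∧
    (((Finset.Icc 1 N).filter fun m => Ω m ≤ k).card : ℝ) ≤ 1 / 4 * N := by
  obtain ⟨B, hB⟩ := lemB (k + 1) (1 / 4) (by norm_num)
  obtain ⟨N, h1, h2⟩ := ((eventually_gt_atTop k).and hB).exists
  refine ⟨N, h1, (Nat.cast_le.2 (Finset.card_le_card fun m hm => ?_)).trans h2⟩
  rw [Finset.mem_filter] at hm ⊢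
  refine ⟨hm.1, (Finset.card_filter_le _ _).trans_lt (Nat.lt_succ_of_le (le_trans ?_ hm.2))⟩
  exact List.toFinset_card_le _

/-- sequences whose repetitions are sparse -/
def Y : Set (ℕ → Bool) :=
  {x | ∀ i j l, i < j → j < l → x (i + 1) = x i → x (j + 1) = x j → x (l + 1) = x l → 2 * j < i + l}

lemma clo (i : ℕ) : IsClopen {x : ℕ → Bool | x (i + 1) = x i} :=
  (isClopen_discrete {p : Bool × Bool | p.1 = p.2}).preimage
    (f := fun x : ℕ → Bool => (x (i + 1), x i)) (by fun_prop)

instance : CompactSpace Y := isCompact_iff_compactSpace.1 <| IsClosed.isCompact <| by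
  simp only [Y, ofPred_forall]
  refine isClosed_iInter fun i => isClosed_iInter fun j => isClosed_iInter fun l =>
    isClosed_iInter fun _ => isClosed_iInter fun _ => ?_
  by_cases h : 2 * j < i + l
  · simp [h]
  · convert ((clo i).inter ((clo j).inter (clo l))).compl.isClosed using 1
    ext x; simp [h]

def T (x : Y) : Y := ⟨fun n => x.1 (n + 1), fun i j l h1 h2 h3 h4 h5 => by
  have := x.2 (i + 1) (j + 1) (l + 1) (by omega) (by omega) h3 h4 h5
  omega⟩

lemma T_it (n : ℕ) (x : Y) (i : ℕ) : (T^[n] x).1 i = x.1 (i + n) := by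
  induction n generalizing x with
  | zero => rfl
  | succ n ih => exact ih (T x)

lemma T_cont : Continuous T := continuous_induced_rng.2
  (continuous_pi fun n => (continuous_apply (n + 1)).comp continuous_subtype_val)

def a (b : Bool) : Y := ⟨fun n => b ^^ n.bodd, fun i _ _ _ _ h => by simp at h⟩

lemma T_a (b : Bool) : T (a b) = a !b := Subtype.ext (funext fun n => by simp [T, a])

def D (i : ℕ) : Set Y := {x | x.1 (i + 1) = x.1 i}

lemma D_m (i : ℕ) : MeasurableSet (D i) :=
  ((clo i).preimage continuous_subtype_val).isClosed.measurableSet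

lemma half {μ : Measure Y} [IsProbabilityMeasure μ] (h : μ.map T = μ) :
    μ = (2⁻¹ : ENNReal) • Measure.dirac (a true) + (2⁻¹ : ENNReal) • Measure.dirac (a false) := by
  have mp : MeasurePreserving T μ μ := ⟨T_cont.measurable, h⟩
  have z0 : μ (D 0) = 0 := by
    refine measure_mono_null (t := (D 0 ∩ ⋂ g, (D (g + 1))ᶜ) ∪ ⋃ g, D 0 ∩ D (g + 1))
      (fun x hx => ?_) (measure_union_null ?_ (measure_iUnion_null fun g => ?_))
    · by_contra q
      simp [hx] at q
      grind
    all_goals by_contra q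
    · obtain ⟨x, ⟨-, h1⟩, m, h2, h3, -⟩ := mp.exists_mem_iterate_mem
        ((D_m 0).inter (MeasurableSet.iInter fun g => (D_m _).compl)).nullMeasurableSet q
      refine mem_iInter.1 h1 (m - 1) ?_
      simp only [D, mem_ofPred_eq, T_it] at h3 ⊢
      grind
    · obtain ⟨x, ⟨h0, h1⟩, m, h2, h3, h4⟩ := mp.exists_mem_iterate_mem
        ((D_m 0).inter (D_m _)).nullMeasurableSet q
      simp only [D, mem_ofPred_eq, T_it] at h0 h1 h3 h4
      have k1 := x.2 0 (g + 1) (g + 1 + m) (by omega) (by omega) h0 h1 (by grind)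
      have k2 := x.2 0 m (g + 1 + m) (by omega) (by omega) h0 (by grind) (by grind)
      omega
  have z1 : μ {a true, a false}ᶜ = 0 := by
    refine measure_mono_null (fun x hx => ?_) (measure_iUnion_null fun n =>
      ((mp.iterate n).measure_preimage (D_m 0).nullMeasurableSet).trans z0)
    by_contra q
    have : x = a (x.1 0) := Subtype.ext <| funext fun n => by
      induction n with
      | zero => simp [a]
      | succ n ih =>
        have : ¬ x.1 (0 + 1 + n) = x.1 (0 + n) := fun r => q (mem_iUnion.2 ⟨n, by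
          simpa only [D, mem_preimage, mem_ofPred_eq, T_it] using r⟩)
        simp only [a, Nat.bodd_succ] at ih ⊢
        grind
    refine hx ?_
    rw [this]
    cases x.1 0 <;> simp
  have ne : a true ≠ a false := fun e => by simpa [a] using congrFun (congrArg Subtype.val e) 0
  have le : ∀ b, μ {a b} ≤ μ {a !b} := fun b =>
    (measure_mono (by simp [T_a])).trans 
      (mp.measure_preimage (measurableSet_singleton _).nullMeasurableSet).le
  have e : μ {a true} = μ {a false} := le_antisymm (le true) (le false)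
  have r : μ = μ {a true} • Measure.dirac (a true) + μ {a false} • Measure.dirac (a false) := by
    rw [← Measure.restrict_singleton, ← Measure.restrict_singleton, ← Measure.restrict_union
      (by simpa using ne) (measurableSet_singleton _), Measure.restrict_eq_self_of_ae_mem]
    exact z1
  have u := congrArg (· univ) r
  simp only [measure_univ, Measure.add_apply, Measure.smul_apply, smul_eq_mul, mul_one, ← e, ← two_mul] at u
  rwa [← e, ENNReal.eq_inv_of_mul_eq_one_left ((mul_comm _ _).trans u.symm)] at r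

lemma ue : UniqErg T := by
  refine ⟨(2⁻¹ : ENNReal) • Measure.dirac (a true) + (2⁻¹ : ENNReal) • Measure.dirac (a false),
    ⟨⟨by simp [ENNReal.inv_two_add_inv_two]⟩, ?_⟩, fun μ ⟨_, h⟩ => half h⟩
  simp [Measure.map_add _ _ T_cont.measurable, Measure.map_dirac' T_cont.measurable, T_a, add_comm]

lemma bad (w : ℕ → ℕ → ℕ) (P : MvPolynomial (Fin 2) ℤ) (hw : ∀ m n : ℕ, 0 < m → 0 < n →
    Ω m ≤ w m n ∧ Ω (eval ![(m : ℤ), (n : ℤ)] P).toNat = 2 * w m n) : Bad P := by
  choose N h1 h2 using lemC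
  let U : ℕ → ℕ := fun M => (Finset.Icc 1 M ×ˢ Finset.Icc 1 M).sup fun p => 2 * w p.1 p.2
  let k : ℕ → ℕ := fun j => (fun i => 2 * i + 1 + U (N i))^[j] 0
  have ks : ∀ j, k (j + 1) = 2 * k j + 1 + U (N (k j)) := fun j => Function.iterate_succ_apply' _ _ _
  have km : StrictMono k := strictMono_nat_of_lt_succ fun j => by rw [ks]; omega
  have ex : ∀ n, ∃ j, n ≤ k j := fun n => ⟨n, km.le_apply⟩
  let c : ℕ → ℕ := fun n => Nat.find (ex n)
  have df : ∀ n, (c (n + 1) + (n + 1)).bodd = (c n + n).bodd → ∃ j, n = k j := fun n h => by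
    refine ⟨c n, (Nat.find_spec (ex n)).antisymm (not_lt.1 fun q => ?_)⟩
    rw [show c (n + 1) = c n from le_antisymm (Nat.find_min' (ex _) q)
      (Nat.find_min' (ex _) ((Nat.le_succ _).trans (Nat.find_spec (ex _)))), ← add_assoc] at h
    simp at h
  let x : Y := ⟨fun n => (c n + n).bodd, fun i j l _ q _ r s => by
    obtain ⟨b, rfl⟩ := df j r
    obtain ⟨d, rfl⟩ := df l s
    have := km.monotone (Nat.succ_le_of_lt (km.lt_iff_lt.1 q))
    rw [ks] at this
    omega⟩
  let v : Bool → ℂ := fun b => if b then 1 else 0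
  refine ⟨Y, TopologicalSpace.metrizableSpaceMetric Y, inferInstance, inferInstance, inferInstance,
    T, T_cont, ue, ⟨fun y => v (y.1 0), (continuous_of_discreteTopology (f := v)).comp
      ((continuous_apply 0).comp continuous_subtype_val)⟩, x, fun ⟨L, hL⟩ => ?_⟩
  have key : ∀ j, ‖A T P (fun y => v (y.1 0)) x (N (k j)) - v (j + 1).bodd‖ ≤ 1 / 4 := fun j => by
    have n0 : (0 : ℝ) < N (k j) := Nat.cast_pos.2 (by have := h1 (k j); omega)
    have : v (j + 1).bodd = (∑ _m ∈ Finset.Icc 1 (N (k j)), ∑ _n ∈ Finset.Icc 1 (N (k j)),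
        v (j + 1).bodd) / (N (k j) : ℂ) ^ 2 := by
      have : (N (k j) : ℂ) ≠ 0 := by exact_mod_cast n0.ne'
      simp; field_simp
    rw [this, A, ← sub_div, ← Finset.sum_sub_distrib, norm_div, norm_pow, Complex.norm_natCast,
      div_le_iff₀ (by positivity)]
    refine (norm_sum_le_of_le _ (n := fun m => if Ω m ≤ k j then (N (k j) : ℝ) else 0)
      fun m hm => ?_).trans (by rw [← Finset.sum_filter]; simp; nlinarith [h2 (k j)])
    rw [← Finset.sum_sub_distrib]
    split_ifs with h
    · refine (norm_sum_le_of_le _ (n := fun _ => 1) fun n _ => ?_).trans (by simp)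
      cases (T^[_] x).1 0 <;> cases (j + 1).bodd <;> simp [v]
    · refine (norm_eq_zero.2 (Finset.sum_eq_zero fun n hn => sub_eq_zero.2 (congrArg v ?_))).le
      obtain ⟨q1, q2⟩ := hw m n (Finset.mem_Icc.1 hm).1 (Finset.mem_Icc.1 hn).1
      have q3 : 2 * w m n ≤ U (N (k j)) := Finset.le_sup (f := fun p : ℕ × ℕ => 2 * w p.1 p.2)
        (Finset.mk_mem_product hm hn)
      have q4 : c (2 * w m n) = j + 1 := (Nat.find_eq_iff _).2 ⟨by rw [ks]; omega, fun i hi => by
        have := km.monotone (Nat.le_of_lt_succ hi)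
        omega⟩
      rw [T_it, q2, zero_add]
      simp [x, q4]
  have lim : ∀ i, ‖L - v (i + 1).bodd‖ ≤ 1 / 4 := fun i => by
    refine le_of_tendsto' ((hL.comp (tendsto_atTop_mono (f := fun j => j) (fun j => ?_) tendsto_id
      (g := fun j => N (k (i + 2 * j))))).sub_const _).norm fun j => ?_
    · have := h1 (k (i + 2 * j))
      have := km.le_apply (x := i + 2 * j)
      omega
    · simpa using key (i + 2 * j)
  have l0 := lim 0
  have l1 := lim 1
  have := norm_sub_le L (L - 1)
  simp [v] at l0 l1 this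
  linarith

theorem result : (∀ R, Pos R → Bad ((X 0 * R) ^ 2)) ∧
    ∃ (P : MvPolynomial (Fin 2) ℤ) (d : ℕ), P.IsHomogeneous d ∧ Pos P ∧ Bad P := by
  have h : ∀ R, Pos R → Bad ((X 0 * R) ^ 2) := fun R hR => by
    refine bad (fun m n => Ω (m * (eval ![(m : ℤ), (n : ℤ)] R).toNat)) _ fun m n hm hn => ?_
    obtain ⟨r, hr⟩ := Int.eq_ofNat_of_zero_le (hR m n hm hn).le
    have : r ≠ 0 := fun e => by simpa [hr, e] using hR m n hm hn
    simp only [map_pow, map_mul, eval_X, Matrix.cons_val_zero, hr, Int.toNat_natCast]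
    rw [← Nat.cast_mul, ← Nat.cast_pow, Int.toNat_natCast, cardFactors_pow,
      cardFactors_mul hm.ne' this]
    omega
  exact ⟨h, _, _, ((isHomogeneous_X ℤ 0).mul (isHomogeneous_X ℤ 1)).pow 2,
    fun m n hm hn => by simp; positivity, h _ fun m n _ hn => by simpa⟩

end Pool.Agent.Results.MP_d352c9_an.Phase
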